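import Pool.Agent.KS6_49.L8.H671R2.GraphEnc

/-!
# Automation: `fun_prop` for `Poly`
-/

namespace Pool.Agent.NPC

attribute [fun_prop] Poly

/-- Membership, for an arbitrary decidability instance. -/
theorem Poly.dec_mem {α β : Type} [TEnc α] [TEnc β] {f : α → β} {l : α → List β}
    [inst : ∀ a, Decidable (f a ∈ l a)] (hf : Poly f) (hl : Poly l) :
    Poly (fun a => @decide (f a ∈ l a) (inst a)) := by
  classical
  exact (Poly.decide_mem hf hl).congr fun a => by congr

/-- Equality, for an arbitrary decidability instance. -/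
theorem Poly.dec_eq {α β : Type} [TEnc α] [TEnc β] {f g : α → β}
    [inst : ∀ a, Decidable (f a = g a)] (hf : Poly f) (hg : Poly g) :
    Poly (fun a => @decide (f a = g a) (inst a)) := by
  classical
  exact (Poly.decide_eq hf hg).congr fun a => by congr

attribute [fun_prop] Poly.dec_mem Poly.dec_eq Poly.id Poly.const Poly.comp Poly.pair Poly.fst Poly.snd
  Poly.cond Poly.not Poly.and Poly.or Poly.xor Poly.decide_and Poly.decide_or Poly.decide_not
  Poly.decide_eq Poly.decide_bool Poly.some Poly.inl Poly.inr Poly.cons Poly.tail Poly.head?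
  Poly.isEmpty Poly.reverse Poly.append Poly.map Poly.flatten Poly.flatMap Poly.filter
  Poly.any Poly.all Poly.decide_mem Poly.add Poly.sub Poly.mul Poly.div Poly.mod
  Poly.decide_lt Poly.decide_le Poly.max Poly.min Poly.length Poly.zip Poly.zipIdx
  Poly.getElem? Poly.getD Poly.sum Poly.ite R671.poly_product

variable {α β γ δ σ : Type} [TEnc α] [TEnc β] [TEnc γ] [TEnc δ] [TEnc σ]

/-- casting to the integers -/
theorem Poly.natCast_int {f : α → ℕ} (hf : Poly f) : Poly (fun a => ((f a : ℕ) : ℤ)) :=
  Poly.of_toT ((Poly.toT' (Poly.pair (Poly.const false) hf)).congr fun a => by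
    change toT (false, f a) = toT (decide (((f a : ℕ) : ℤ) < 0), ((f a : ℕ) : ℤ).natAbs)
    have h : decide (((f a : ℕ) : ℤ) < 0) = false := by simp
    rw [h]
    simp)

attribute [fun_prop] Poly.natCast_int

theorem Poly.sumElim {o : α → β ⊕ γ} {g : α → β → δ} {h : α → γ → δ} (ho : Poly o)
    (hg : Poly (fun p : α × β => g p.1 p.2)) (hh : Poly (fun p : α × γ => h p.1 p.2)) :
    Poly (fun a => Sum.elim (g a) (h a) (o a)) :=
  (Poly.sumCases ho hg hh).congr fun a => by cases o a <;> rfl

theorem Poly.optElim {o : α → Option β} {g : α → γ} {h : α → β → γ} (ho : Poly o) (hg : Poly g)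
    (hh : Poly (fun p : α × β => h p.1 p.2)) : Poly (fun a => (o a).elim (g a) (h a)) :=
  (Poly.optCases ho hg hh).congr fun a => by cases o a <;> rfl

theorem Poly.optMap_fp {o : α → Option β} {h : α → β → γ} (ho : Poly o)
    (hh : Poly (fun p : α × β => h p.1 p.2)) : Poly (fun a => (o a).map (h a)) :=
  (Poly.optElim ho (Poly.const none) (Poly.some hh)).congr fun a => by cases o a <;> rfl

theorem Poly.optGetD {o : α → Option β} {g : α → β} (ho : Poly o) (hg : Poly g) :
    Poly (fun a => (o a).getD (g a)) :=
  (Poly.optElim (h := fun _ b => b) ho hg (Poly.snd Poly.id)).congr fun a => by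
    cases o a <;> rfl

theorem Poly.optAny_fp {o : α → Option β} {h : α → β → Bool} (ho : Poly o)
    (hh : Poly (fun p : α × β => h p.1 p.2)) : Poly (fun a => (o a).any (h a)) :=
  (Poly.optElim ho (Poly.const false) hh).congr fun a => by cases o a <;> rfl

attribute [fun_prop] Poly.sumElim Poly.optElim Poly.optMap_fp Poly.optGetD Poly.optAny_fp

theorem Poly.range_uPoly {n : α → ℕ} (hn : UPoly n) : Poly (fun a => List.range (n a)) := hn.range

example (f : α → β × γ) (hf : Poly f) : Poly (fun a => ((f a).2, (f a).1)) := by fun_prop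
example (f : α → List ℕ) (hf : Poly f) : Poly (fun a => (f a).map (fun n => n + 2)) := by fun_prop
example (f : α → List ℕ) (hf : Poly f) :
    Poly (fun a => (f a).map (fun n => n + (f a).length)) := by fun_prop
example (f : α → List ℕ) (hf : Poly f) (g : α → ℕ → Bool) (hg : Poly (fun p : α × ℕ => g p.1 p.2)) :
    Poly (fun a => (f a).map (fun n => g a n)) := by fun_prop
example (f : α → List ℕ) (hf : Poly f) :
    Poly (fun a => (f a).map (fun n => (f a).map (fun m => n + m + (f a).length))) := by fun_prop
example (f : α → List ℕ) (hf : Poly f) :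
    Poly (fun a => (f a).filter (fun n => decide (n ∈ f a ∧ n + 1 < (f a).length))) := by fun_prop

example (f : α → List ℕ) (hf : Poly f) :
    Poly (fun a => if (f a).length < 3 then (f a).flatMap (fun n => [n, n + 1]) else f a) := by
  fun_prop
example (f : α → ℕ) (hf : Poly f) :
    Poly (fun a => (List.replicate 2 (f a))) := by
  simp only [List.replicate]
  fun_prop

end Pool.Agent.NPC
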