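import Pool.Agent.KS6_49.L8.NPC.Defs

/-!
# Definitions: graphs as inputs, integer domination
-/

namespace Pool.Agent.NPC.R671

/-- The adjacency matrix of a graph on `{0, ..., n-1}`, as a list of rows. -/
noncomputable def adjMatrix {n : ℕ} (G : SimpleGraph (Fin n)) : List (List Bool) :=
  open Classical in List.ofFn fun i => List.ofFn fun j => decide (G.Adj i j)

/-- `f` is an integer dominating function of `G`: for every vertex `v` the sum of `f` over the
closed neighbourhood of `v` is at least one. -/
def IsZDominating {V : Type*} [Fintype V] (G : SimpleGraph V) (f : V → ℤ) : Prop :=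
  open Classical in ∀ v, 1 ≤ ∑ u ∈ Finset.univ.filter (fun u => u = v ∨ G.Adj v u), f u

/-- The `ℤ`-domination number: the infimum, in the extended reals, of the weights of the integer
dominating functions. -/
noncomputable def gammaZ {V : Type*} [Fintype V] (G : SimpleGraph V) : EReal :=
  ⨅ f : {f : V → ℤ // IsZDominating G f}, (((∑ v, f.1 v : ℤ) : ℝ) : EReal)

/-- The decision problem: given (the adjacency matrix of) a graph `G` and an integer `k`, is
the `ℤ`-domination number of `G` at most `k`? -/
def ZDOM (p : List (List Bool) × ℤ) : Prop :=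
  ∃ (n : ℕ) (G : SimpleGraph (Fin n)), adjMatrix G = p.1 ∧ gammaZ G ≤ ((p.2 : ℝ) : EReal)

end Pool.Agent.NPC.R671
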